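import Mathlib
import Pool.Agent.Q299.TypeSpace
import Pool.Agent.Q299.TypeLim
import Pool.Agent.Q299.EDR

set_option autoImplicit false

namespace Pool.Agent.Results.MP_fdecab_lc.EDRPimpliesFPT

open FirstOrder Filter Pool.Agent.Q299.TypeSpace Pool.Agent.Q299.TypeLim Pool.Agent.Q299.EDR

/-- The externally definable Ramsey property. -/
def EDRP (L : FirstOrder.Language.{0, 0}) (M : Type) [L.Structure M] : Prop :=
  ∀ (A B : Type) [L.Structure A] [L.Structure B], Finite A → Finite B → Nonempty (A ↪[L] M) →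
    Nonempty (B ↪[L] M) → ∀ k : ℕ, 1 ≤ k → ∀ χ : (A ↪[L] M) → Fin k, ExtDef L χ →
      ∃ g : B ↪[L] M, ∀ f f' : A ↪[L] B, χ (g.comp f) = χ (g.comp f')

variable {L : FirstOrder.Language.{0, 0}} {M : Type} [L.Structure M] {n : ℕ}

/-- the substructure on a finite set -/
def subs (L : FirstOrder.Language.{0, 0}) {M : Type} [L.Structure M] (A : Finset M) :
    L.Substructure M :=
  FirstOrder.Language.Substructure.closure L (A : Set M)

theorem mem_subs [L.IsRelational] (A : Finset M) (a : M) : a ∈ subs L A ↔ a ∈ A := by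
  unfold subs
  rw [FirstOrder.Language.Substructure.mem_closure_iff_of_isRelational]
  exact Finset.mem_coe

theorem finite_subs [L.IsRelational] (A : Finset M) : Finite (subs L A) := by
  have : Function.Injective (fun a : subs L A => (⟨a.1, (mem_subs A a.1).1 a.2⟩ : A)) := by
    intro a b h
    exact Subtype.ext (congrArg (fun x : A => x.1) h)
  exact Finite.of_injective _ this

/-- restriction of an automorphism -/
def restr [L.IsRelational] (A B : Finset M) (g : M ≃[L] M) (hg : ∀ a ∈ A, g a ∈ B) :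
    subs L A ↪[L] subs L B where
  toFun a := ⟨g a.1, (mem_subs B _).2 (hg a.1 ((mem_subs A a.1).1 a.2))⟩
  inj' := by
    intro a b h
    exact Subtype.ext (g.injective (congrArg Subtype.val h))
  map_fun' := fun {n} f => isEmptyElim f
  map_rel' := by
    intro k r x
    exact g.map_rel r (fun i => (x i : M))

theorem restr_apply [L.IsRelational] (A B : Finset M) (g : M ≃[L] M) (hg : ∀ a ∈ A, g a ∈ B)
    (a : subs L A) : ((restr A B g hg a : subs L B) : M) = g a := rfl

theorem finArrow [L.IsRelational] [Nonempty M] (hM : L.IsUltrahomogeneous M) (hE : EDRP L M)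
    (φ : L.Formula (M ⊕ Fin n)) (A B : Finset M) (hA : SuppIn φ A) : ∃ C : Finset M,
    ∀ q : TypeSpace L M n, ∃ h : M ≃[L] M, (∀ b ∈ B, h b ∈ C) ∧ ∀ g g' : M ≃[L] M,
      (∀ a ∈ A, g a ∈ B) → (∀ a ∈ A, g' a ∈ B) →
      (φ.relabel (Sum.map (fun m => h (g m)) id) ∈ q.1 ↔
        φ.relabel (Sum.map (fun m => h (g' m)) id) ∈ q.1) := by
  classical
  by_contra hcon
  push Not at hcon
  choose Q hQ using hcon
  let U : Ultrafilter (Finset M) := Ultrafilter.of atTop
  have hU : (U : Filter (Finset M)) ≤ atTop := Ultrafilter.of_le _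
  let q : TypeSpace L M n := lim U Q
  obtain ⟨N, _, j, e, hN⟩ := exists_ext q
  obtain ⟨ψ, hψ⟩ := exists_restrict φ A hA (subs L A) (fun a => (a : M))
    (fun a ha => ⟨⟨a, (mem_subs A a).2 ha⟩, rfl⟩)
  let χ : (subs L A ↪[L] M) → Fin 2 := fun f =>
    if ψ.Realize (Sum.elim e (fun a => j (f a))) then 0 else 1
  have hχ : ExtDef L χ := by
    refine ⟨N, inferInstance, j, n, e, fun i => if i = 0 then ψ else ψ.not, ?_⟩
    intro f i
    fin_cases i
    · simp only [Fin.zero_eta, Fin.isValue, ↓reduceIte]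
      change (if ψ.Realize (Sum.elim e (fun a => j (f a))) then (0 : Fin 2) else 1) = 0 ↔
        ψ.Realize (Sum.elim e (fun a => j (f a)))
      by_cases h1 : ψ.Realize (Sum.elim e (fun a => j (f a))) <;> simp [h1]
    · simp only [Fin.mk_one, Fin.isValue, one_ne_zero, ↓reduceIte]
      rw [FirstOrder.Language.Formula.realize_not]
      change (if ψ.Realize (Sum.elim e (fun a => j (f a))) then (0 : Fin 2) else 1) = 1 ↔
        ¬ ψ.Realize (Sum.elim e (fun a => j (f a)))
      by_cases h1 : ψ.Realize (Sum.elim e (fun a => j (f a))) <;> simp [h1]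
  have hχ2 : ∀ (f : subs L A ↪[L] M) (g : M → M), (∀ a : subs L A, f a = g a) →
      (χ f = 0 ↔ φ.relabel (Sum.map g id) ∈ q.1) := by
    intro f g hfg
    have h1 : χ f = 0 ↔ ψ.Realize (Sum.elim e (fun a => j (f a))) := by
      change (if ψ.Realize (Sum.elim e (fun a => j (f a))) then (0 : Fin 2) else 1) = 0 ↔ _
      by_cases h1 : ψ.Realize (Sum.elim e (fun a => j (f a))) <;> simp [h1]
    rw [h1, hN, FirstOrder.Language.Formula.realize_relabel]
    have h2 : (fun a : subs L A => j (f a)) = fun a : subs L A => j (g a) := by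
      funext a
      rw [hfg]
    rw [h2]
    refine (hψ N e (fun m => j (g m))).trans ?_
    have h3 : (Sum.elim (fun m => j m) e ∘ Sum.map g id : M ⊕ Fin n → N) =
        Sum.elim (fun m => j (g m)) e := by
      funext i
      rcases i with i | i <;> rfl
    rw [h3]
  obtain ⟨g0, hg0⟩ := hE (subs L A) (subs L B) (finite_subs A) (finite_subs B)
    ⟨(subs L A).subtype⟩ ⟨(subs L B).subtype⟩ 2 (by norm_num) χ hχ
  obtain ⟨h, hh⟩ := hM (subs L B) (by
    have := finite_subs (L := L) B
    exact FirstOrder.Language.Substructure.FG.of_finite) g0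
  have hh' : ∀ b : subs L B, g0 b = h b := by
    intro b
    rw [hh]
    rfl
  -- representatives
  have hrep : ∀ f : subs L A ↪[L] subs L B, ∃ g : M ≃[L] M, ∀ a : subs L A, (f a : M) = g a := by
    intro f
    obtain ⟨g, hg⟩ := hM (subs L A) (by
      have := finite_subs (L := L) A
      exact FirstOrder.Language.Substructure.FG.of_finite) ((subs L B).subtype.comp f)
    refine ⟨g, fun a => ?_⟩
    have : (subs L B).subtype.comp f a = g a := by
      rw [hg]
      rfl
    exact this
  choose rep hrep using hrep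
  have hfinA := finite_subs (L := L) A
  have hfinB := finite_subs (L := L) B
  have hfin : Finite (subs L A ↪[L] subs L B) :=
    Finite.of_injective (fun f => (f : subs L A → subs L B)) DFunLike.coe_injective
  have hev : ∀ f : subs L A ↪[L] subs L B, ∀ᶠ C in (U : Filter (Finset M)),
      (φ.relabel (Sum.map (fun m => h (rep f m)) id) ∈ (Q C).1 ↔
        φ.relabel (Sum.map (fun m => h (rep f m)) id) ∈ q.1) := by
    intro f
    by_cases h1 : φ.relabel (Sum.map (fun m => h (rep f m)) id) ∈ q.1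
    · have h2 := (mem_lim U Q _).1 h1
      filter_upwards [h2] with C hC
      exact ⟨fun _ => h1, fun _ => hC⟩
    · have h2 := h1
      rw [mem_lim, ← Ultrafilter.eventually_not] at h2
      filter_upwards [h2] with C hC
      exact ⟨fun h3 => absurd h3 hC, fun h3 => absurd h3 h1⟩
  have hev2 : ∀ᶠ C in (U : Filter (Finset M)), ∀ f : subs L A ↪[L] subs L B,
      (φ.relabel (Sum.map (fun m => h (rep f m)) id) ∈ (Q C).1 ↔
        φ.relabel (Sum.map (fun m => h (rep f m)) id) ∈ q.1) := by
    rw [Filter.eventually_all]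
    exact hev
  have hev3 : ∀ᶠ C in (U : Filter (Finset M)), ∀ b ∈ B, h b ∈ C := by
    apply hU
    filter_upwards [Filter.eventually_ge_atTop (B.image h)] with C hC b hb
    exact hC (Finset.mem_image_of_mem _ hb)
  obtain ⟨C, hC1, hC2⟩ := (hev2.and hev3).exists
  obtain ⟨g, g', hg, hg', hne⟩ := hQ C h hC2
  have key : ∀ (g : M ≃[L] M) (hg : ∀ a ∈ A, g a ∈ B),
      (φ.relabel (Sum.map (fun m => h (g m)) id) ∈ (Q C).1 ↔
        χ (g0.comp (restr A B g hg)) = 0) := by
    intro g hg
    have h1 : φ.relabel (Sum.map (fun m => h (g m)) id) ∈ (Q C).1 ↔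
        φ.relabel (Sum.map (fun m => h (rep (restr A B g hg) m)) id) ∈ (Q C).1 := by
      apply relabel_mem_congr _ hA
      intro a ha
      have := hrep (restr A B g hg) ⟨a, (mem_subs A a).2 ha⟩
      rw [restr_apply] at this
      change h (g a) = h (rep (restr A B g hg) a)
      rw [← this]
    rw [h1, hC1]
    symm
    apply hχ2
    intro a
    change g0 (restr A B g hg a) = h (rep (restr A B g hg) a)
    rw [hh', ← hrep]
  have h1 := key g hg
  have h2 := key g' hg'
  rw [hg0 (restr A B g hg) (restr A B g' hg')] at h1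
  have h3 := h1.trans h2.symm
  rcases hne with ⟨h4, h5⟩ | ⟨h4, h5⟩
  · exact h5 (h3.1 h4)
  · exact h4 (h3.2 h5)

theorem mem_act_symm (h : M ≃[L] M) (q : TypeSpace L M n) (φ : L.Formula (M ⊕ Fin n)) (g : M → M) :
    φ.relabel (Sum.map g id) ∈ (act h.symm q).1 ↔
      φ.relabel (Sum.map (fun m => h (g m)) id) ∈ q.1 := by
  rw [mem_act]
  apply mem_congr
  intro x
  rw [FirstOrder.Language.Formula.realize_relabel, FirstOrder.Language.Formula.realize_relabel,
    FirstOrder.Language.Formula.realize_relabel]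
  have : ((Sum.elim id x ∘ Sum.map (h.symm.symm) id) ∘ Sum.map g id : M ⊕ Fin n → M) =
      Sum.elim id x ∘ Sum.map (fun m => h (g m)) id := by
    funext i
    rcases i with i | i
    · change h.symm.symm (g i) = h (g i)
      rfl
    · rfl
  rw [this]

theorem multi [L.IsRelational] [Nonempty M] (hM : L.IsUltrahomogeneous M) (hE : EDRP L M)
    (A : Finset M) (l : List (L.Formula (M ⊕ Fin n))) (hA : ∀ φ ∈ l, SuppIn φ A) :
    ∀ B : Finset M, ∃ C : Finset M,
    ∀ q : TypeSpace L M n, ∃ h : M ≃[L] M, (∀ b ∈ B, h b ∈ C) ∧ ∀ φ ∈ l, ∀ g g' : M ≃[L] M,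
      (∀ a ∈ A, g a ∈ B) → (∀ a ∈ A, g' a ∈ B) →
      (φ.relabel (Sum.map (fun m => h (g m)) id) ∈ q.1 ↔
        φ.relabel (Sum.map (fun m => h (g' m)) id) ∈ q.1) := by
  classical
  induction l with
  | nil =>
    intro B
    exact ⟨B, fun q => ⟨FirstOrder.Language.Equiv.refl L M, fun b hb => hb,
      fun φ hφ => by simp at hφ⟩⟩
  | cons φ l ih =>
    intro B
    obtain ⟨C, hC⟩ := ih (fun ψ hψ => hA ψ (List.mem_cons_of_mem _ hψ)) B
    obtain ⟨D, hD⟩ := finArrow hM hE φ A C (hA φ (by simp))
    refine ⟨D, fun q => ?_⟩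
    obtain ⟨h1, h1D, h1m⟩ := hD q
    obtain ⟨h2, h2C, h2m⟩ := hC (act h1.symm q)
    refine ⟨h1.comp h2, fun b hb => h1D _ (h2C b hb), ?_⟩
    intro ψ hψ g g' hg hg'
    rcases List.mem_cons.1 hψ with rfl | hψ
    · exact h1m (h2.comp g) (h2.comp g') (fun a ha => h2C _ (hg a ha))
        (fun a ha => h2C _ (hg' a ha))
    · have h3 := h2m ψ hψ g g' hg hg'
      rw [mem_act_symm, mem_act_symm] at h3
      exact h3

/-- For every ultrahomogeneous structure in a relational language, the externally definable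
Ramsey property implies the fixed points on type spaces property. -/
theorem result (L : FirstOrder.Language.{0, 0}) [L.IsRelational] (M : Type) [L.Structure M]
    (hM : L.IsUltrahomogeneous M) (hE : EDRP L M) : FPT L M := by
  classical
  intro n hn X hX hcl hinv
  obtain ⟨p, hp⟩ := hX
  have hne : Nonempty M := by
    obtain ⟨x, -⟩ := p.2.2 ∅ (by simp)
    exact ⟨x ⟨0, hn⟩⟩
  have hstep : ∀ F : Finset ((M ≃[L] M) × L.Formula (M ⊕ Fin n)), ∃ q ∈ X, ∀ x ∈ F,
      (x.2 ∈ q.1 ↔ x.2.relabel (Sum.map x.1.symm id) ∈ q.1) := by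
    intro F
    choose s hs using fun φ : L.Formula (M ⊕ Fin n) => exists_suppIn φ
    let A : Finset M := F.biUnion (fun x => s x.2)
    have hA : ∀ x ∈ F, SuppIn x.2 A := fun x hx => (hs x.2).mono fun a ha =>
      Finset.mem_biUnion.2 ⟨x, hx, ha⟩
    let B : Finset M := A ∪ F.biUnion (fun x => A.image x.1.symm)
    obtain ⟨C, hC⟩ := multi hM hE A (F.toList.map Prod.snd) (by
      intro φ hφ
      obtain ⟨x, hx, rfl⟩ := List.mem_map.1 hφ
      exact hA x (Finset.mem_toList.1 hx)) B
    obtain ⟨h, -, hh⟩ := hC p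
    refine ⟨act h.symm p, hinv _ _ hp, ?_⟩
    intro x hx
    have h1 := hh x.2 (List.mem_map.2 ⟨x, Finset.mem_toList.2 hx, rfl⟩)
      (FirstOrder.Language.Equiv.refl L M) x.1.symm (fun a ha => Finset.mem_union_left _ ha)
      (fun a ha => Finset.mem_union_right _ (Finset.mem_biUnion.2 ⟨x, hx,
        Finset.mem_image_of_mem _ ha⟩))
    rw [mem_act_symm, ← h1, ← mem_act_symm]
    apply mem_congr
    intro y
    rw [FirstOrder.Language.Formula.realize_relabel]
    have : (Sum.elim id y ∘ Sum.map (fun m => (FirstOrder.Language.Equiv.refl L M) m) id :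
        M ⊕ Fin n → M) = Sum.elim id y := by
      funext i
      rcases i with i | i <;> rfl
    rw [this]
  choose Q hQX hQ using hstep
  let U : Ultrafilter (Finset ((M ≃[L] M) × L.Formula (M ⊕ Fin n))) := Ultrafilter.of atTop
  have hU : (U : Filter (Finset ((M ≃[L] M) × L.Formula (M ⊕ Fin n)))) ≤ atTop :=
    Ultrafilter.of_le _
  refine ⟨lim U Q, lim_mem U Q X hcl hQX, fun g => ?_⟩
  apply Subtype.ext
  ext φ
  rw [mem_act, mem_lim, mem_lim]
  refine Filter.eventually_congr ?_
  apply hU
  filter_upwards [Filter.eventually_ge_atTop {(g, φ)}] with F hF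
  exact (hQ F (g, φ) (hF (Finset.mem_singleton_self _))).symm

end Pool.Agent.Results.MP_fdecab_lc.EDRPimpliesFPT
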